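import Pool.Agent.H27.L1.H84.GA.BDB
import Pool.Agent.H27.L1.H34.GA.Targets1

/-!
Row BIA: the bump functions near the unit matrix.
-/

set_option autoImplicit false

namespace Pool.Agent.H27.L1.H84.GA

open MeasureTheory Pool.Agent.H27.L1.H34.GM Pool.Agent.H27.L1.H34.GZ Pool.Agent.H27.L1.H34.GU Pool.Agent.H27.L1.H34.GA

namespace BD

lemma sz_le {m : ℕ} {z : Mat m} {c : ℝ} (hc : 0 ≤ c) (h : ∀ i j, |z i j| ≤ c) : sz z ≤ c := by
  unfold sz
  rw [pi_norm_le_iff_of_nonneg hc]
  intro i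
  rw [pi_norm_le_iff_of_nonneg hc]
  intro j
  exact h i j

lemma le_sz {m : ℕ} (z : Mat m) (i j : Fin m) : |z i j| ≤ sz z := by
  have h1 := norm_le_pi_norm (((fun i j => z i j) : V m)) i
  have h2 := norm_le_pi_norm (((fun i j => z i j) : V m) i) j
  exact h2.trans h1

lemma sz_nn {m : ℕ} (z : Mat m) : 0 ≤ sz z := norm_nonneg _

lemma sz_mul {m : ℕ} (a b : Mat m) : sz (a * b) ≤ m * sz a * sz b := by
  apply sz_le (mul_nonneg (mul_nonneg (Nat.cast_nonneg _) (sz_nn _)) (sz_nn _))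
  intro i j
  rw [Matrix.mul_apply]
  refine (Finset.abs_sum_le_sum_abs _ _).trans ?_
  calc ∑ l, |a i l * b l j| ≤ ∑ _l : Fin m, sz a * sz b := by
        apply Finset.sum_le_sum
        intro l _
        rw [abs_mul]
        exact mul_le_mul (le_sz _ _ _) (le_sz _ _ _) (abs_nonneg _) (sz_nn _)
    _ = m * sz a * sz b := by
        rw [Finset.sum_const, Finset.card_univ, Fintype.card_fin, nsmul_eq_mul]
        ring

/-- the compact neighbourhood of the unit matrix -/
def KK (m : ℕ) : Set (V m) := {z | ∑ i, ∑ j, ((mt z - 1) i j) ^ 2 ≤ 1 / 4}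

lemma KK_comp {m : ℕ} : IsCompact (KK m) := by
  have hc : Continuous fun z : V m => ∑ i, ∑ j, ((mt z - 1) i j) ^ 2 := by
    refine continuous_finsetSum _ fun i _ => continuous_finsetSum _ fun j _ => ?_
    have h1 : Continuous fun z : V m => z i j - (1 : Mat m) i j := by fun_prop
    exact h1.pow 2
  apply Metric.isCompact_of_isClosed_isBounded
  · exact isClosed_le hc continuous_const
  · refine (Metric.isBounded_closedBall (x := (0 : V m)) (r := 2)).subset ?_
    intro z hz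
    rw [mem_closedBall_zero_iff, pi_norm_le_iff_of_nonneg zero_le_two]
    intro i
    rw [pi_norm_le_iff_of_nonneg zero_le_two]
    intro j
    have h2 : ((mt z - 1) i j) ^ 2 ≤ 1 / 4 := by
      refine le_trans ?_ hz
      refine le_trans ?_ (Finset.single_le_sum (f := fun i => ∑ j, ((mt z - 1) i j) ^ 2)
        (fun i _ => Finset.sum_nonneg fun j _ => sq_nonneg _) (Finset.mem_univ i))
      exact Finset.single_le_sum (f := fun j => ((mt z - 1) i j) ^ 2) (fun j _ => sq_nonneg _)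
        (Finset.mem_univ j)
    have h3 : (mt z - 1) i j = z i j - (1 : Mat m) i j := rfl
    rw [h3] at h2
    have h4 : |z i j - (1 : Mat m) i j| ≤ 1 := by
      rw [abs_le_one_iff_mul_self_le_one]
      nlinarith
    have h5 : |(1 : Mat m) i j| ≤ 1 := by
      rw [Matrix.one_apply]
      split_ifs <;> simp
    rw [Real.norm_eq_abs]
    calc |z i j| = |(z i j - (1 : Mat m) i j) + (1 : Mat m) i j| := by rw [sub_add_cancel]
      _ ≤ |z i j - (1 : Mat m) i j| + |(1 : Mat m) i j| := abs_add_le _ _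
      _ ≤ 2 := by linarith

lemma KK_pos {m : ℕ} {z : V m} (hz : z ∈ KK m) : 0 < (mt z).det := by
  have h2 : mt z = 1 + (mt z - 1) := by abel
  rw [h2]
  apply det_pos
  have : ∑ i, ∑ j, ((mt z - 1) i j) ^ 2 ≤ 1 / 4 := hz
  linarith

lemma KK_bd {m : ℕ} : ∃ C : ℝ, 1 ≤ C ∧ ∀ z ∈ KK m, C⁻¹ ≤ |(mt z).det| ∧ sz ((mt z)⁻¹) ≤ C := by
  have h1 : ∃ c : ℝ, 0 < c ∧ ∀ z ∈ KK m, c ≤ (mt z).det := by
    by_cases hne : (KK m).Nonempty
    · obtain ⟨z0, hz0, h0⟩ := KK_comp.exists_isMinOn hne FD.cont_det.continuousOn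
      exact ⟨(mt z0).det, KK_pos hz0, fun z hz => h0 hz⟩
    · exact ⟨1, one_pos, fun z hz => absurd ⟨z, hz⟩ hne⟩
  obtain ⟨c, hc, hc1⟩ := h1
  have h2 : ∃ A : ℝ, ∀ z ∈ KK m, sz ((mt z).adjugate) ≤ A := by
    have hcont : Continuous fun z : V m => sz ((mt z).adjugate) := by
      have h3 : Continuous fun z : V m => (mt z).adjugate :=
        Continuous.matrix_adjugate continuous_id
      exact continuous_norm.comp h3
    obtain ⟨A, hA⟩ := (KK_comp.image hcont).bddAbove
    exact ⟨A, fun z hz => hA ⟨z, hz, rfl⟩⟩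
  obtain ⟨A, hA⟩ := h2
  refine ⟨max (max 1 c⁻¹) (c⁻¹ * A), (le_max_left _ _).trans (le_max_left _ _), ?_⟩
  intro z hz
  have hd := KK_pos hz
  have hcd := hc1 z hz
  constructor
  · rw [abs_of_pos hd]
    refine le_trans ?_ hcd
    rw [inv_le_comm₀ (by positivity) hc]
    exact (le_max_right _ _).trans (le_max_left _ _)
  · refine le_trans ?_ (le_max_right _ _)
    apply sz_le (mul_nonneg (inv_nonneg.2 hc.le) ((sz_nn _).trans (hA z hz)))
    intro i j
    rw [Matrix.inv_def, Ring.inverse_eq_inv', Matrix.smul_apply, smul_eq_mul, abs_mul, abs_inv,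
      abs_of_pos hd]
    exact mul_le_mul (inv_anti₀ hc hcd) ((le_sz _ _ _).trans (hA z hz)) (abs_nonneg _)
      (inv_nonneg.2 hc.le)

lemma mem_KK {m : ℕ} {χ : ℝ → ℝ} (hχ : Prof χ) {δ : ℝ} (hδ : 0 < δ) (hδ2 : δ ≤ 1 / 2) {z : V m}
    (hz : bi m χ δ (mt z) ≠ 0) : z ∈ KK m := by
  have h1 := sum_lt hχ hδ hz
  show ∑ i, ∑ j, ((mt z - 1) i j) ^ 2 ≤ 1 / 4
  nlinarith

lemma sz_sub_le {m : ℕ} {χ : ℝ → ℝ} (hχ : Prof χ) {δ : ℝ} (hδ : 0 < δ) {z : Mat m}
    (hz : bi m χ δ z ≠ 0) : sz (z - 1) ≤ δ := by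
  have h1 := sum_lt hχ hδ hz
  apply sz_le hδ.le
  intro i j
  apply abs_le_of_sq_le_sq _ hδ.le
  refine le_trans ?_ h1.le
  refine le_trans ?_ (Finset.single_le_sum (f := fun i => ∑ j, ((z - 1) i j) ^ 2)
    (fun i _ => Finset.sum_nonneg fun j _ => sq_nonneg _) (Finset.mem_univ i))
  exact Finset.single_le_sum (f := fun j => ((z - 1) i j) ^ 2) (fun j _ => sq_nonneg _)
    (Finset.mem_univ j)

lemma bi_smooth {m : ℕ} {χ : ℝ → ℝ} (hχ : Prof χ) {δ : ℝ} (hδ : 0 < δ) :
    ContDiff ℝ ((⊤ : ℕ∞) : WithTop ℕ∞) (fun z : V m => bi m χ δ (mt z)) := by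
  have h1 : (fun z : V m => bi m χ δ (mt z)) = fun z : V m => b1 m χ (δ⁻¹ • (z - oneV m)) := by
    funext z
    exact bi_eq χ hδ z
  rw [h1]
  apply (b1_smooth hχ).comp
  fun_prop

end BD

open BD in
theorem pf_BIA : T_BIA := by
  intro m χ hm hχ
  obtain ⟨C, hC, hK⟩ := KK_bd (m := m)
  have hm1 : (1 : ℝ) ≤ m := by exact_mod_cast hm
  refine ⟨m * C, by nlinarith, ?_⟩
  intro δ hδ hδ2
  have hC0 : 0 < C := by linarith
  refine ⟨⟨⟨?_, max 2 C, by positivity, ?_⟩, bi_smooth hχ hδ⟩, ?_⟩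
  · exact (bi_smooth (m := m) hχ hδ).continuous
  · intro z hz
    have h1 : (z : V m) ∈ KK m := mem_KK hχ hδ hδ2 hz
    have h2 := hK _ h1
    refine ⟨?_, ?_⟩
    · refine le_trans ?_ (le_max_left _ _)
      have h3 := sz_sub_le hχ hδ hz
      apply sz_le zero_le_two
      intro i j
      have h4 := (le_sz (z - 1) i j).trans h3
      rw [Matrix.sub_apply] at h4
      have h5 : |(1 : Mat m) i j| ≤ 1 := by
        rw [Matrix.one_apply]
        split_ifs <;> simp
      calc |z i j| = |(z i j - (1 : Mat m) i j) + (1 : Mat m) i j| := by rw [sub_add_cancel]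
        _ ≤ |z i j - (1 : Mat m) i j| + |(1 : Mat m) i j| := abs_add_le _ _
        _ ≤ 2 := by linarith
    · refine le_trans ?_ h2.1
      exact inv_anti₀ hC0 (le_max_right _ _)
  · intro z
    have hval : bi m χ δ z = ((χ ((∑ i, ∑ j, ((z - 1) i j) ^ 2) / δ ^ 2) : ℝ) : ℂ) := rfl
    refine ⟨?_, ?_, ?_, ?_⟩
    · rw [hval, Complex.norm_real, Real.norm_of_nonneg (hχ.lo _)]
      exact hχ.hi _
    · rw [hval, Complex.norm_real, Real.norm_of_nonneg (hχ.lo _)]
    · intro hz
      have h1 : (z : V m) ∈ KK m := mem_KK hχ hδ hδ2 hz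
      have h2 := hK _ h1
      have h3 := sz_sub_le hχ hδ hz
      refine ⟨?_, ?_, h3, ?_⟩
      · apply sz_le zero_le_two
        intro i j
        have h4 := (le_sz (z - 1) i j).trans h3
        rw [Matrix.sub_apply] at h4
        have h5 : |(1 : Mat m) i j| ≤ 1 := by
          rw [Matrix.one_apply]
          split_ifs <;> simp
        calc |z i j| = |(z i j - (1 : Mat m) i j) + (1 : Mat m) i j| := by rw [sub_add_cancel]
          _ ≤ |z i j - (1 : Mat m) i j| + |(1 : Mat m) i j| := abs_add_le _ _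
          _ ≤ 2 := by linarith
      · refine le_trans ?_ h2.1
        exact inv_anti₀ hC0 (by nlinarith)
      · have hd : (z : Mat m).det ≠ 0 := (KK_pos h1).ne'
        have h4 : z⁻¹ - 1 = -(z⁻¹ * (z - 1)) := by
          rw [Matrix.mul_sub, Matrix.mul_one, Matrix.nonsing_inv_mul z (isUnit_iff_ne_zero.2 hd)]
          abel
        rw [h4]
        have h5 : sz (-(z⁻¹ * (z - 1))) = sz (z⁻¹ * (z - 1)) := by
          unfold sz
          exact norm_neg _
        rw [h5]
        refine (sz_mul _ _).trans ?_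
        have h6 : sz z⁻¹ ≤ C := h2.2
        have := sz_nn (z - 1)
        have := sz_nn z⁻¹
        gcongr
    · intro hz
      rw [hval]
      have h1 : ∑ i, ∑ j, ((z - 1) i j) ^ 2 ≤ δ ^ 2 / 4 := by
        calc ∑ i, ∑ j, ((z - 1) i j) ^ 2 ≤ ∑ _i : Fin m, ∑ _j : Fin m, (δ / (2 * m)) ^ 2 := by
              apply Finset.sum_le_sum
              intro i _
              apply Finset.sum_le_sum
              intro j _
              exact sq_le_sq' (by
                have := (abs_le.1 ((le_sz (z - 1) i j).trans hz)).1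
                linarith) ((abs_le.1 ((le_sz (z - 1) i j).trans hz)).2)
          _ = δ ^ 2 / 4 := by
              simp only [Finset.sum_const, Finset.card_univ, Fintype.card_fin, nsmul_eq_mul]
              field_simp
              ring
      have h2 : |(∑ i, ∑ j, ((z - 1) i j) ^ 2) / δ ^ 2| ≤ 1 / 4 := by
        rw [abs_of_nonneg (by positivity), div_le_iff₀ (by positivity)]
        linarith
      rw [hχ.one _ h2]
      simp

end Pool.Agent.H27.L1.H84.GA
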