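import Pool.Agent.H27.L1.H84.GA.BID

/-!
Row FTY: Fourier transform of the bump functions.
-/

set_option autoImplicit false

namespace Pool.Agent.H27.L1.H84.GA

open MeasureTheory Pool.Agent.H27.L1.H34.GM Pool.Agent.H27.L1.H34.GU Pool.Agent.H27.L1.H34.GA
open Pool.Agent.H27.L1.H34.GZ hiding eu eu2 cf

namespace FY

open FD BD DE

lemma EE_add {m : ℕ} (w : Mat m) (δ : ℝ) (y : V m) :
    EE w (δ • y + oneV m) = EE w (oneV m) * EE (δ • w) y := by
  show Complex.exp (2 * Real.pi * Complex.I * ((-(trL w (δ • y + oneV m)) : ℝ) : ℂ)) =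
    Complex.exp (2 * Real.pi * Complex.I * ((-(trL w (oneV m)) : ℝ) : ℂ)) *
      Complex.exp (2 * Real.pi * Complex.I * ((-((δ • w) * mt y).trace : ℝ) : ℂ))
  rw [← Complex.exp_add, Matrix.smul_mul, Matrix.trace_smul, map_add, map_smul]
  congr 1
  have h1 : trL w y = (w * mt y).trace := rfl
  rw [h1]
  simp only [smul_eq_mul]
  push_cast
  ring

/-- scaling of the Fourier integral -/
lemma sc {m : ℕ} (h : V m → ℂ) {δ : ℝ} (hδ : 0 < δ) (w : Mat m) :
    ‖∫ z : V m, h (δ⁻¹ • (z - oneV m)) * EE w z‖ =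
      δ ^ (m * m) * ‖∫ y : V m, h y * EE (δ • w) y‖ := by
  have h1 : ∫ z : V m, h (δ⁻¹ • (z - oneV m)) * EE w z =
      ∫ z : V m, h (δ⁻¹ • z) * EE w (z + oneV m) := by
    have := integral_sub_right_eq_self (μ := (volume : Measure (V m)))
      (fun z : V m => h (δ⁻¹ • z) * EE w (z + oneV m)) (oneV m)
    rw [← this]
    apply integral_congr_ae
    filter_upwards with z
    rw [sub_add_cancel]
  have h2 : ∫ z : V m, h (δ⁻¹ • z) * EE w (z + oneV m) =
      |δ ^ (Module.finrank ℝ (V m))| • ∫ y : V m, h y * EE w (δ • y + oneV m) := by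
    have := Measure.integral_comp_inv_smul (volume : Measure (V m))
      (fun y : V m => h y * EE w (δ • y + oneV m)) δ
    rw [← this]
    apply integral_congr_ae
    filter_upwards with z
    rw [smul_smul, mul_inv_cancel₀ hδ.ne', one_smul]
  have h3 : Module.finrank ℝ (V m) = m * m := by
    rw [Module.finrank_pi_fintype]
    simp
  have h4 : ∫ y : V m, h y * EE w (δ • y + oneV m) =
      EE w (oneV m) * ∫ y : V m, h y * EE (δ • w) y := by
    rw [← integral_const_mul]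
    apply integral_congr_ae
    filter_upwards with y
    rw [EE_add]
    ring
  rw [h1, h2, h3, h4, norm_smul, norm_mul, EE_norm, one_mul, Real.norm_eq_abs, abs_abs,
    abs_of_pos (by positivity)]

/-- the decay after scaling -/
lemma scd {m : ℕ} {h : V m → ℂ} (hf : ContDiff ℝ ((⊤ : ℕ∞) : WithTop ℕ∞) h)
    (hc : HasCompactSupport h) (N : ℕ) {δ : ℝ} (hδ : 0 < δ) (hδ2 : δ ≤ 1 / 2) (w : Mat m) :
    ‖∫ z : V m, h (δ⁻¹ • (z - oneV m)) * EE w z‖ ≤
      dc h N * δ⁻¹ ^ N * (1 + sz w) ^ (-(N : ℝ)) := by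
  have hs0 : 0 ≤ sz w := norm_nonneg _
  rw [sc h hδ w]
  have h1 := dec hf hc N (δ • w)
  have h2 : sz (δ • w) = δ * sz w := by
    have : sz (δ • w) = ‖δ • ((fun i j => w i j) : V m)‖ := rfl
    rw [this, norm_smul, Real.norm_of_nonneg hδ.le]
    rfl
  have h3 : δ ^ (m * m) ≤ 1 := pow_le_one₀ hδ.le (by linarith)
  have h4 : (1 + sz (δ • w)) ^ (-(N : ℝ)) ≤ δ⁻¹ ^ N * (1 + sz w) ^ (-(N : ℝ)) := by
    rw [h2, Real.rpow_neg (by positivity), Real.rpow_neg (by positivity), Real.rpow_natCast,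
      Real.rpow_natCast, inv_pow, ← mul_inv, ← mul_pow]
    apply inv_anti₀ (by positivity)
    apply pow_le_pow_left₀ (by positivity)
    nlinarith
  calc δ ^ (m * m) * ‖∫ y : V m, h y * EE (δ • w) y‖
      ≤ 1 * ‖∫ y : V m, h y * EE (δ • w) y‖ := mul_le_mul_of_nonneg_right h3 (norm_nonneg _)
    _ ≤ dc h N * (1 + sz (δ • w)) ^ (-(N : ℝ)) := by rw [one_mul]; exact h1
    _ ≤ dc h N * (δ⁻¹ ^ N * (1 + sz w) ^ (-(N : ℝ))) :=
        mul_le_mul_of_nonneg_left h4 (dc_pos _ _).le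
    _ = dc h N * δ⁻¹ ^ N * (1 + sz w) ^ (-(N : ℝ)) := by ring

/-- Euler's operator after scaling -/
lemma eu_sc {m : ℕ} {χ : ℝ → ℝ} (hχ : Prof χ) {δ : ℝ} (hδ : 0 < δ) (z : V m) :
    eu (bi m χ δ) (mt z) =
      (fun y : V m => fderiv ℝ (b1 m χ) y y) (δ⁻¹ • (z - oneV m)) +
      ((δ⁻¹ : ℝ) : ℂ) *
        (fun y : V m => fderiv ℝ (b1 m χ) y (oneV m)) (δ⁻¹ • (z - oneV m)) := by
  rw [TE.eu_eq (bi_smooth hχ hδ) z]
  have hK : HasFDerivAt (b1 m χ) (fderiv ℝ (b1 m χ) (δ⁻¹ • (z - oneV m)))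
      (δ⁻¹ • (z - oneV m)) := (((b1_smooth hχ).differentiable (by simp)) _).hasFDerivAt
  have hA : HasFDerivAt (fun z : V m => δ⁻¹ • (z - oneV m))
      (δ⁻¹ • ContinuousLinearMap.id ℝ (V m)) z := by
    have := ((hasFDerivAt_id (𝕜 := ℝ) z).sub_const (oneV m)).const_smul δ⁻¹
    exact this
  have hcomp := hK.comp z hA
  have hfe : (fun z : V m => bi m χ δ (mt z)) =
      (b1 m χ) ∘ fun z : V m => δ⁻¹ • (z - oneV m) := by
    funext y
    exact bi_eq χ hδ y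
  rw [hfe, hcomp.fderiv]
  show fderiv ℝ (b1 m χ) (δ⁻¹ • (z - oneV m)) (δ⁻¹ • z) =
    fderiv ℝ (b1 m χ) (δ⁻¹ • (z - oneV m)) (δ⁻¹ • (z - oneV m)) +
    ((δ⁻¹ : ℝ) : ℂ) * fderiv ℝ (b1 m χ) (δ⁻¹ • (z - oneV m)) (oneV m)
  have h1 : δ⁻¹ • z = δ⁻¹ • (z - oneV m) + δ⁻¹ • oneV m := by
    rw [← smul_add, sub_add_cancel]
  conv_lhs => rw [h1, map_add, map_smul _ δ⁻¹ (oneV m)]
  rw [Complex.real_smul]

end FY

open FY FD BD DE in
theorem pf_FTY : T_FTY := by
  intro m χ N hm hχ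
  have hs := b1_smooth (m := m) hχ
  have hc := b1_comp (m := m) hχ
  have hfd : ContDiff ℝ ((⊤ : ℕ∞) : WithTop ℕ∞) (fderiv ℝ (b1 m χ)) :=
    hs.fderiv_right (by exact_mod_cast (le_top : ((⊤ : ℕ∞) + (1 : ℕ∞)) ≤ ⊤))
  have s1 : ContDiff ℝ ((⊤ : ℕ∞) : WithTop ℕ∞) (fun y : V m => fderiv ℝ (b1 m χ) y y) :=
    hfd.clm_apply contDiff_id
  have s2 : ContDiff ℝ ((⊤ : ℕ∞) : WithTop ℕ∞) (fun y : V m => fderiv ℝ (b1 m χ) y (oneV m)) :=
    hfd.clm_apply contDiff_const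
  have c1 : HasCompactSupport (fun y : V m => fderiv ℝ (b1 m χ) y y) := by
    refine HasCompactSupport.intro hc ?_
    intro z hz
    rw [fderiv_of_notMem_tsupport (𝕜 := ℝ) hz]
    rfl
  have c2 : HasCompactSupport (fun y : V m => fderiv ℝ (b1 m χ) y (oneV m)) := by
    refine HasCompactSupport.intro hc ?_
    intro z hz
    rw [fderiv_of_notMem_tsupport (𝕜 := ℝ) hz]
    rfl
  have d0 := dc_pos (b1 m χ) N
  have d1 := dc_pos (fun y : V m => fderiv ℝ (b1 m χ) y y) N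
  have d2 := dc_pos (fun y : V m => fderiv ℝ (b1 m χ) y (oneV m)) N
  refine ⟨dc (b1 m χ) N + dc (fun y : V m => fderiv ℝ (b1 m χ) y y) N +
    dc (fun y : V m => fderiv ℝ (b1 m χ) y (oneV m)) N, N + 1, by positivity, ?_⟩
  intro δ hδ hδ2 w
  have hs0 : 0 ≤ sz w := norm_nonneg _
  have hδi : 1 ≤ δ⁻¹ := by
    rw [one_le_inv₀ hδ]
    linarith
  have hp1 : δ⁻¹ ^ N ≤ δ⁻¹ ^ (N + 1) := pow_le_pow_right₀ hδi (Nat.le_succ _)
  have hp : (0 : ℝ) ≤ (1 + sz w) ^ (-(N : ℝ)) := Real.rpow_nonneg (by linarith) _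
  constructor
  · show ‖(starRingEnd ℂ) (ft (bi m χ δ) w)‖ ≤ _
    rw [RCLike.norm_conj]
    have h1 : ft (bi m χ δ) w = ∫ z : V m, (b1 m χ) (δ⁻¹ • (z - oneV m)) * EE w z := by
      unfold ft
      apply integral_congr_ae
      filter_upwards with z
      rw [bi_eq χ hδ z]
      rfl
    rw [h1]
    refine (scd hs hc N hδ hδ2 w).trans ?_
    apply mul_le_mul_of_nonneg_right _ hp
    apply mul_le_mul _ hp1 (by positivity) (by positivity)
    linarith
  · show ‖(starRingEnd ℂ) (ft (eu (bi m χ δ)) w)‖ ≤ _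
    rw [RCLike.norm_conj]
    have hinv : Continuous fun z : V m => δ⁻¹ • (z - oneV m) := by fun_prop
    have hcsc : ∀ g : V m → ℂ, HasCompactSupport g →
        HasCompactSupport fun z : V m => g (δ⁻¹ • (z - oneV m)) := by
      intro g hg
      have hcl : IsCompact ((fun y : V m => δ • y + oneV m) '' tsupport g) :=
        hg.isCompact.image (by fun_prop)
      refine HasCompactSupport.intro hcl ?_
      intro z hz
      by_contra hn
      apply hz
      refine ⟨δ⁻¹ • (z - oneV m), subset_tsupport _ hn, ?_⟩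
      show δ • (δ⁻¹ • (z - oneV m)) + oneV m = z
      rw [smul_smul, mul_inv_cancel₀ hδ.ne', one_smul, sub_add_cancel]
    have h1 : ft (eu (bi m χ δ)) w =
        (∫ z : V m, (fun y : V m => fderiv ℝ (b1 m χ) y y) (δ⁻¹ • (z - oneV m)) * EE w z) +
        ((δ⁻¹ : ℝ) : ℂ) * ∫ z : V m, (fun y : V m => fderiv ℝ (b1 m χ) y (oneV m))
          (δ⁻¹ • (z - oneV m)) * EE w z := by
      rw [← integral_const_mul, ← integral_add]
      · unfold ft
        apply integral_congr_ae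
        filter_upwards with z
        rw [eu_sc hχ hδ z]
        show _ * EE w z = _
        ring
      · exact ((s1.continuous.comp hinv).mul (EE_cont w)).integrable_of_hasCompactSupport
          (hcsc _ c1).mul_right
      · exact (((s2.continuous.comp hinv).mul (EE_cont w)).integrable_of_hasCompactSupport
          (hcsc _ c2).mul_right).const_mul _
    rw [h1]
    refine (norm_add_le _ _).trans ?_
    rw [norm_mul, Complex.norm_real, Real.norm_of_nonneg (by positivity)]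
    have e1 := scd s1 c1 N hδ hδ2 w
    have e2 := scd s2 c2 N hδ hδ2 w
    have e3 : δ⁻¹ * ‖∫ z : V m, (fun y : V m => fderiv ℝ (b1 m χ) y (oneV m))
        (δ⁻¹ • (z - oneV m)) * EE w z‖ ≤
        dc (fun y : V m => fderiv ℝ (b1 m χ) y (oneV m)) N * δ⁻¹ ^ (N + 1) *
          (1 + sz w) ^ (-(N : ℝ)) := by
      refine (mul_le_mul_of_nonneg_left e2 (by positivity)).trans (le_of_eq ?_)
      rw [pow_succ]
      ring
    have e4 : dc (fun y : V m => fderiv ℝ (b1 m χ) y y) N * δ⁻¹ ^ N *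
        (1 + sz w) ^ (-(N : ℝ)) ≤ dc (fun y : V m => fderiv ℝ (b1 m χ) y y) N *
        δ⁻¹ ^ (N + 1) * (1 + sz w) ^ (-(N : ℝ)) :=
      mul_le_mul_of_nonneg_right (mul_le_mul_of_nonneg_left hp1 d1.le) hp
    have e5 : 0 ≤ dc (b1 m χ) N * δ⁻¹ ^ (N + 1) * (1 + sz w) ^ (-(N : ℝ)) := by positivity
    have e6 : (dc (b1 m χ) N + dc (fun y : V m => fderiv ℝ (b1 m χ) y y) N +
        dc (fun y : V m => fderiv ℝ (b1 m χ) y (oneV m)) N) * δ⁻¹ ^ (N + 1) *
        (1 + sz w) ^ (-(N : ℝ)) = dc (b1 m χ) N * δ⁻¹ ^ (N + 1) * (1 + sz w) ^ (-(N : ℝ)) +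
        dc (fun y : V m => fderiv ℝ (b1 m χ) y y) N * δ⁻¹ ^ (N + 1) * (1 + sz w) ^ (-(N : ℝ)) +
        dc (fun y : V m => fderiv ℝ (b1 m χ) y (oneV m)) N * δ⁻¹ ^ (N + 1) *
          (1 + sz w) ^ (-(N : ℝ)) := by ring
    rw [e6]
    linarith

end Pool.Agent.H27.L1.H84.GA
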