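import Pool.Agent.H27.L1.H34.GA.Targets1

/-!
Row UDE: the derivative of the local transform.
-/

set_option autoImplicit false

namespace Pool.Agent.H27.L1.H84.GA

open MeasureTheory Pool.Agent.H27.L1.H34.GM Pool.Agent.H27.L1.H34.GZ Pool.Agent.H27.L1.H34.GU Pool.Agent.H27.L1.H34.GA

namespace UD

/-- integrability over the shell -/
lemma int_shell (hM : T_MSR) (hJ : T_JSH) (m : ℕ) (hm : 1 ≤ m) : ∃ N : ℕ, ∀ t : ℝ, 0 < t →
    IntegrableOn (fun z : V m => (1 + sz ((t * (aN (mt z))⁻¹) • mt z)) ^ (-(N : ℝ))) (Shell m)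
      (Pool.Agent.H27.L1.H34.GM.hm m) := by
  obtain ⟨N, C, hC, h⟩ := hJ m hm ((m : ℝ) ^ 2) le_rfl
  refine ⟨N, fun t ht => ?_⟩
  have h1 := h t⁻¹ (inv_pos.2 ht)
  rw [inv_inv] at h1
  have hmeas : Measurable fun z : V m => (1 + sz ((t * (aN (mt z))⁻¹) • mt z)) ^ (-(N : ℝ)) := by
    have h2 := (hM.1 m).2.2.1
    have h3 : Measurable fun z : V m => (t * (aN (mt z))⁻¹) • z :=
      (measurable_const.mul h2.inv).smul measurable_id
    exact (measurable_const.add h3.norm).pow_const _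
  refine ⟨hmeas.aestronglyMeasurable, ?_⟩
  rw [hasFiniteIntegral_iff_ofReal (Filter.Eventually.of_forall fun z => by
    have : 0 ≤ sz ((t * (aN (mt z))⁻¹) • mt z) := norm_nonneg _
    positivity)]
  exact lt_of_le_of_lt h1 ENNReal.ofReal_lt_top

end UD

theorem pf_UDE : T_MSR → T_JSH → T_UDE := by
  intro hM hJ m hm c M hc f f1 hf hf1 hd r hr
  obtain ⟨N, hN⟩ := UD.int_shell hM hJ m hm
  obtain ⟨C0, hC0, hd0⟩ := hf.dec N
  obtain ⟨C1, hC1, hd1⟩ := hf1.dec N
  have hma : Measurable fun z : V m => aN (mt z) := (hM.1 m).2.2.1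
  have hms : MeasurableSet (Shell m) := (hM.1 m).2.2.2.2.2.1
  have hB0 : ∀ z ∈ Shell m, (mt z).det ≠ 0 ∧ 0 < aN (mt z) := by
    intro z hz
    have h1 : 0 < aN (mt z) := lt_of_lt_of_le one_pos hz.1
    refine ⟨?_, h1⟩
    intro h0
    have : aN (mt z) = 0 := by
      unfold aN
      rw [h0, abs_zero, Real.zero_rpow]
      have : (0 : ℝ) < m := by exact_mod_cast hm
      positivity
    linarith
  have hM0 : 0 ≤ max M 0 := le_max_right _ _
  have hfb : ∀ z ∈ Shell m, ‖c (mt z)‖ ≤ max M 0 := fun z hz =>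
    (hc.bd _ (hB0 z hz).1).trans (le_max_left _ _)
  have hcm : AEStronglyMeasurable (fun z : V m => c (mt z))
      ((Pool.Agent.H27.L1.H34.GM.hm m).restrict (Shell m)) := hc.meas.restrict
  have hmz : ∀ s : ℝ, Measurable fun z : V m => ((s⁻¹ * (aN (mt z))⁻¹) • z : V m) := fun s =>
    (measurable_const.mul hma.inv).smul measurable_id
  have hcf : Continuous fun z : V m => f (mt z) := hf.cont
  have hcf1 : Continuous fun z : V m => f1 (mt z) := hf1.cont
  have hmF : ∀ s : ℝ, AEStronglyMeasurable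
      (fun z : V m => f ((s⁻¹ * (aN (mt z))⁻¹) • mt z) * c (mt z))
      ((Pool.Agent.H27.L1.H34.GM.hm m).restrict (Shell m)) := fun s =>
    (hcf.measurable.comp (hmz s)).aestronglyMeasurable.mul hcm
  have hmE : ∀ s : ℝ, AEStronglyMeasurable
      (fun z : V m => f1 ((s⁻¹ * (aN (mt z))⁻¹) • mt z) * c (mt z))
      ((Pool.Agent.H27.L1.H34.GM.hm m).restrict (Shell m)) := fun s =>
    (hcf1.measurable.comp (hmz s)).aestronglyMeasurable.mul hcm
  -- the derivative under the integral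
  have key := hasDerivAt_integral_of_dominated_loc_of_deriv_le
    (μ := (Pool.Agent.H27.L1.H34.GM.hm m).restrict (Shell m))
    (F := fun (s : ℝ) (z : V m) => f ((s⁻¹ * (aN (mt z))⁻¹) • mt z) * c (mt z))
    (F' := fun (s : ℝ) (z : V m) =>
      -((s : ℂ)⁻¹) * (f1 ((s⁻¹ * (aN (mt z))⁻¹) • mt z) * c (mt z)))
    (x₀ := r) (s := Set.Ioo (r / 2) (2 * r))
    (bound := fun z => (2 / r) * (C1 * (1 + sz (((2 * r)⁻¹ * (aN (mt z))⁻¹) • mt z)) ^ (-(N : ℝ)) *
      max M 0))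
    (Ioo_mem_nhds (by linarith) (by linarith))
    (Filter.Eventually.of_forall fun s => hmF s) ?_
    (aestronglyMeasurable_const.mul (hmE r)) ?_ ?_ ?_
  · have h1 := key.2
    have h2 : ∫ z in Shell m, -((r : ℂ)⁻¹) * (f1 ((r⁻¹ * (aN (mt z))⁻¹) • mt z) * c (mt z))
        ∂(Pool.Agent.H27.L1.H34.GM.hm m) = -((r : ℂ)⁻¹ * uu f1 c r) := by
      rw [integral_const_mul]
      unfold uu
      ring
    rw [h2] at h1
    exact h1
  · -- integrable
    have h1 := ((hN r⁻¹ (inv_pos.2 hr)).const_mul C0).mul_const (max M 0)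
    refine Integrable.mono' h1 (hmF r) ?_
    rw [ae_restrict_iff' hms]
    refine Filter.Eventually.of_forall fun z hz => ?_
    rw [norm_mul]
    refine mul_le_mul (hd0 _) (hfb z hz) (norm_nonneg _) ?_
    have : 0 ≤ sz ((r⁻¹ * (aN (mt z))⁻¹) • mt z) := norm_nonneg _
    positivity
  · rw [ae_restrict_iff' hms]
    refine Filter.Eventually.of_forall fun z hz s hs => ?_
    have hs0 : 0 < s := by have := hs.1; linarith
    have ha := (hB0 z hz).2
    rw [norm_mul, norm_mul, norm_neg, norm_inv, Complex.norm_real, Real.norm_of_nonneg hs0.le]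
    have h1 : s⁻¹ ≤ 2 / r := by
      rw [inv_le_comm₀ hs0 (by positivity), inv_div]
      exact hs.1.le
    have h2 : sz (((2 * r)⁻¹ * (aN (mt z))⁻¹) • mt z) ≤ sz ((s⁻¹ * (aN (mt z))⁻¹) • mt z) := by
      show ‖((2 * r)⁻¹ * (aN (mt z))⁻¹) • z‖ ≤ ‖(s⁻¹ * (aN (mt z))⁻¹) • z‖
      simp only [norm_smul, norm_mul, norm_inv]
      rw [Real.norm_of_nonneg hs0.le, Real.norm_of_nonneg (by linarith : (0:ℝ) ≤ 2),
        Real.norm_of_nonneg hr.le]
      have := hs.2.le
      gcongr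
    have hp1 : 0 ≤ sz (((2 * r)⁻¹ * (aN (mt z))⁻¹) • mt z) := norm_nonneg _
    have hp2 : 0 ≤ sz ((s⁻¹ * (aN (mt z))⁻¹) • mt z) := norm_nonneg _
    have h3 : (1 + sz ((s⁻¹ * (aN (mt z))⁻¹) • mt z)) ^ (-(N : ℝ)) ≤
        (1 + sz (((2 * r)⁻¹ * (aN (mt z))⁻¹) • mt z)) ^ (-(N : ℝ)) :=
      Real.rpow_le_rpow_of_nonpos (by positivity) (by linarith) (by simp)
    have h4 : ‖f1 ((s⁻¹ * (aN (mt z))⁻¹) • mt z)‖ * ‖c (mt z)‖ ≤
        C1 * (1 + sz (((2 * r)⁻¹ * (aN (mt z))⁻¹) • mt z)) ^ (-(N : ℝ)) * max M 0 := by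
      refine mul_le_mul ((hd1 _).trans ?_) (hfb z hz) (norm_nonneg _) (by positivity)
      exact mul_le_mul_of_nonneg_left h3 hC1
    exact mul_le_mul h1 h4 (by positivity) (by positivity)
  · exact (((hN (2 * r)⁻¹ (by positivity)).const_mul C1).mul_const (max M 0)).const_mul (2 / r)
  · rw [ae_restrict_iff' hms]
    refine Filter.Eventually.of_forall fun z hz s hs => ?_
    have hs0 : 0 < s := by have := hs.1; linarith
    have hsc : (s : ℂ) ≠ 0 := by exact_mod_cast hs0.ne'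
    set w : Mat m := (s⁻¹ * (aN (mt z))⁻¹) • mt z with hw
    have h1 : HasDerivAt (fun y : ℝ => s * y⁻¹) (-s⁻¹) s := by
      have h2 := (hasDerivAt_inv hs0.ne').const_mul s
      have h3 : s * -(s ^ 2)⁻¹ = -s⁻¹ := by field_simp
      rw [h3] at h2
      exact h2
    have h2 : HasDerivAt (fun c : ℝ => f (c • w)) (f1 w) (s * s⁻¹) := by
      rw [mul_inv_cancel₀ hs0.ne']
      exact hd w
    have h3 := HasDerivAt.scomp (𝕜 := ℝ) s h2 h1
    have h4 : ((fun c : ℝ => f (c • w)) ∘ fun y : ℝ => s * y⁻¹) =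
        fun y : ℝ => f ((y⁻¹ * (aN (mt z))⁻¹) • mt z) := by
      funext y
      show f ((s * y⁻¹) • w) = _
      rw [hw, smul_smul]
      congr 2
      field_simp
    rw [h4] at h3
    have h5 := h3.mul_const (c (mt z))
    have h6 : (-s⁻¹ : ℝ) • f1 w * c (mt z) = -((s : ℂ)⁻¹) * (f1 w * c (mt z)) := by
      rw [Complex.real_smul, Complex.ofReal_neg, Complex.ofReal_inv]
      ring
    rw [h6] at h5
    exact h5

end Pool.Agent.H27.L1.H84.GA
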